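import Pool.Agent.X43.KR.Fin

/-!
# KLS for log-concave measures symmetric along a tower of partitions of the coordinates

A tower of `k` partitions of the coordinates: the blocks of level `0` are the single coordinates, every
block of level `j + 1` is a union of blocks of level `j`, all of them are permuted by the permutations
in `Q`, and any two blocks of level `j` in the same block of level `j + 1` can be exchanged by a
permutation in `Q` which leaves the other blocks of level `j` in place. Blocks of the same level may
have different sizes and shapes, and no symmetry is assumed between the `q` blocks of the last level.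

The KLS inequality is transferred from dimension `q` to all dimensions: if it holds with the constant
`K` for the log-concave densities on `ℝ^q` invariant under the permutations of the `q` blocks induced
by `Q`, then it holds (in the equivalent form of E. Milman for Lipschitz functions) for all
`Q`-invariant log-concave densities on `ℝ^n` with the constant `C^(k²) K ∏_j (1 + T_j)²`, where
`∑ exp (-T_j m) ≤ 1`, the sum over the blocks of level `j + 1` which consist of `m ≥ 2` blocks of
level `j`; so the loss is bounded when these numbers `m` are at least of the order of the logarithm of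
the number of the blocks. Unconditionally one may take `K = q`.

For `k = 1`: `n` coordinates in `q` blocks of arbitrary sizes, invariance under the permutations inside
the blocks. The starting file `HierarchicallyExchangeable` is the case of the automorphisms of a tree in
which all the nodes of one level have the same number of children, `q = 1`.

Method. The local Poincaré property of the starting file (Poincaré inequality for invariant
log-concave densities supported in a sublevel set of an invariant norm with exponential tails) is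
shown to go up from the blocks to the coordinates for blocks of arbitrary sizes: the density is tilted
by a Gaussian in the directions of the block sums and the tilt is removed with the property for the
law of its centre, a log-concave density on the space of the blocks with the induced symmetries. The
last level is an arbitrary Poincaré inequality in dimension `q`.
-/

set_option autoImplicit false

namespace Pool.Agent.Results.MP_6d896a_gt.BlockSymmetric

open MeasureTheory Set
open scoped ENNReal InnerProductSpace

/-- `ℝ^n` -/
abbrev E (n : ℕ) : Type := EuclideanSpace ℝ (Fin n)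

/-- `ρ` is a log-concave density on `ℝ^n` invariant under the permutations of the coordinates in
`Q`. -/
structure Density {n : ℕ} (Q : Set (Equiv.Perm (Fin n))) (ρ : E n → ℝ) : Prop where
  nonneg : ∀ x, 0 ≤ ρ x
  meas : Measurable ρ
  logc : ∀ x y, ∀ t : ℝ, 0 < t → t < 1 → ρ x ^ (1 - t) * ρ y ^ t ≤ ρ ((1 - t) • x + t • y)
  inv : ∀ σ ∈ Q, ∀ x y : E n, (∀ i, y i = x (σ i)) → ρ y = ρ x

/-- `Var ⟪θ, X⟫ ≤ s ‖θ‖²` for all `θ`: the covariance matrix of `μ` has norm at most `s`. -/
def CovLe {n : ℕ} (μ : Measure (E n)) (s : ℝ) : Prop :=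
  ∀ θ : E n, ProbabilityTheory.evariance (fun x => ⟪θ, x⟫_ℝ) μ ≤ ENNReal.ofReal (s * ‖θ‖ ^ 2)

/-- Tower of `k` partitions of the coordinates (besides the partition into single coordinates) with
symmetries in `Q`; two coordinates are in the same block of level `j ≤ k` if they have the same label
`lab j`. -/
structure Tower {n : ℕ} (k : ℕ) (lab : ℕ → Fin n → ℕ) (Q : Set (Equiv.Perm (Fin n))) : Prop where
  /-- the blocks of level `0` are the single coordinates -/
  bot : ∀ x y, lab 0 x = lab 0 y → x = y
  /-- a block of level `j + 1` is a union of blocks of level `j` -/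
  mono : ∀ j < k, ∀ x y, lab j x = lab j y → lab (j + 1) x = lab (j + 1) y
  /-- the permutations in `Q` map blocks to blocks -/
  pres : ∀ σ ∈ Q, ∀ j ≤ k, ∀ x y, lab j x = lab j y ↔ lab j (σ x) = lab j (σ y)
  /-- two blocks of level `j` in the same block of level `j + 1` are exchanged by some `σ` in `Q`
  which leaves all the other blocks of level `j` in place -/
  exch : ∀ j < k, ∀ x y, lab (j + 1) x = lab (j + 1) y → lab j x ≠ lab j y → ∃ σ ∈ Q,
    lab j (σ x) = lab j y ∧ lab j (σ y) = lab j x ∧
      ∀ z, lab j z ≠ lab j x → lab j z ≠ lab j y → lab j (σ z) = lab j z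

/-- the number of the blocks of level `j` in the block of level `j + 1` with the label `c` -/
def sub {n : ℕ} (lab : ℕ → Fin n → ℕ) (j c : ℕ) : ℕ :=
  ((Finset.univ.filter fun x => lab (j + 1) x = c).image (lab j)).card

/-- `T_j ≥ 0` and `∑ exp (-T_j m) ≤ 1`, the sum over the blocks of level `j + 1` which consist of
`m ≥ 2` blocks of level `j`, for all `j < k` -/
def Rates {n : ℕ} (k : ℕ) (lab : ℕ → Fin n → ℕ) (T : ℕ → ℝ) : Prop :=
  ∀ j < k, 0 ≤ T j ∧
    ∑ c ∈ (Finset.univ.image (lab (j + 1))).filter (fun c => 2 ≤ sub lab j c),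
      Real.exp (-(T j * sub lab j c)) ≤ 1

/-- the permutations of `q` blocks (the fibres of `top`) induced by the permutations in `Q` -/
def induced {n q : ℕ} (top : Fin n → Fin q) (Q : Set (Equiv.Perm (Fin n))) :
    Set (Equiv.Perm (Fin q)) :=
  {π | ∃ σ ∈ Q, ∀ i, top (σ i) = π (top i)}

/-- the KLS inequality (spectral gap) with the constant `K` for the log-concave probability densities
of bounded support on `ℝ^q` invariant under the permutations in `P`: `Var f ≤ K s E ‖∇ f‖²` when the
covariance matrix has norm at most `s` -/
def KLS {q : ℕ} (P : Set (Equiv.Perm (Fin q))) (K : ℝ) : Prop :=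
  ∀ ρ : E q → ℝ, Density P ρ → (∃ R : ℝ, ∀ x, R < ‖x‖ → ρ x = 0) → ∀ μ : Measure (E q),
    μ = volume.withDensity (fun x => ENNReal.ofReal (ρ x)) → IsProbabilityMeasure μ →
    ∀ s : ℝ, 0 < s → CovLe μ s → ∀ f : E q → ℝ, ContDiff ℝ 1 f →
      ProbabilityTheory.variance f μ ≤ K * s * ∫ x, ‖fderiv ℝ f x‖ ^ 2 ∂μ

/-- **KLS for log-concave measures symmetric along a tower of partitions.** There is an absolute
constant `C` such that for all `k, n ≥ 1`, every tower of `k` partitions of the `n` coordinates with
symmetries in `Q`, with numbers `T_0, …, T_{k-1}` as in `Rates` and `q` blocks of level `k` (the fibres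
of `top`), and every `K ≥ 1` with `q ≤ K`, or such that the KLS inequality with the constant `K` holds
on `ℝ^q` for the densities invariant under the permutations of the blocks induced by `Q`: for every
`Q`-invariant log-concave probability density on `ℝ^n` with covariance matrix of norm at most `s`,
every `C¹` function with `‖∇ f‖ ≤ 1` has variance at most `C^(k²) K ∏_{j<k} (1 + T_j)² s`, and every
`C¹` function with `|f| ≤ 1` satisfies `(Var f)² ≤ C^(k²) K ∏_{j<k} (1 + T_j)² s E ‖∇ f‖²`. -/
theorem result : ∃ C : ℝ, 1 ≤ C ∧ ∀ k n : ℕ, 1 ≤ k → 1 ≤ n → ∀ (lab : ℕ → Fin n → ℕ)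
    (Q : Set (Equiv.Perm (Fin n))) (T : ℕ → ℝ), Tower k lab Q → Rates k lab T →
    ∀ (q : ℕ) (top : Fin n → Fin q), Function.Surjective top →
    (∀ x y, top x = top y ↔ lab k x = lab k y) →
    ∀ K : ℝ, 1 ≤ K → (q : ℝ) ≤ K ∨ KLS (induced top Q) K →
    ∀ ρ : E n → ℝ, Density Q ρ →
    ∀ μ : Measure (E n),
    μ = volume.withDensity (fun x => ENNReal.ofReal (ρ x)) → IsProbabilityMeasure μ →
    ∀ s : ℝ, 0 < s → CovLe μ s → ∀ f : E n → ℝ, ContDiff ℝ 1 f →
    ((∀ x, ‖fderiv ℝ f x‖ ≤ 1) → MemLp f 2 μ ∧
      ProbabilityTheory.variance f μ ≤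
        C ^ (k ^ 2) * (K * ∏ j ∈ Finset.range k, (1 + T j) ^ 2) * s) ∧
    ((∀ x, |f x| ≤ 1) → ENNReal.ofReal (ProbabilityTheory.variance f μ ^ 2) ≤
      ENNReal.ofReal (C ^ (k ^ 2) * (K * ∏ j ∈ Finset.range k, (1 + T j) ^ 2) * s) *
        ∫⁻ x, ENNReal.ofReal (‖fderiv ℝ f x‖ ^ 2) ∂μ) := by
  obtain ⟨C, hC, H⟩ := Pool.Agent.X43.KR.Tow.fullA
  refine ⟨C, hC, ?_⟩
  intro k n hk hn lab Q T hTow hR q top htop htl K hK hor ρ hρ μ hμ hprob s hs hcov f hf
  subst hμ
  refine H k n lab Q T q top K ⟨hk, hn, ⟨hTow.bot, hTow.mono, hTow.pres, hTow.exch⟩, hR, htop, htl,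
    hK, ?_⟩ ρ (Pool.Agent.X43.KR.Tow.gd_of hρ.nonneg hρ.meas hρ.logc hρ.inv)
    hprob.measure_univ s hs hcov f hf
  refine hor.imp id fun h => ?_
  intro ρ' h1 h2 h3 h4 h5 h6 s' hs' hcov' g hg
  exact h ρ' ⟨h1, h2, h3, h4⟩ h5 _ rfl ⟨h6⟩ s' hs' hcov' g hg

end Pool.Agent.Results.MP_6d896a_gt.BlockSymmetric
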