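import Pool.Agent.X43.RF.E

/-!
# KLS for log-concave measures with radial blocks of vectors and free coordinates

The Kannan-Lovasz-Simonovits inequality, in the equivalent (E. Milman) form for Lipschitz functions,
for all log-concave probability measures on `(ℝ^{m_1})^{k_1} × ⋯ × (ℝ^{m_b})^{k_b} × ℝ^q` whose density
depends on the first coordinates only through the norms of the vectors and does not change when the
vectors of the same block are permuted. There is no condition on the `q` free coordinates, and the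
free coordinates and the norms may depend on each other.

The constant is `C (1 + T)² K` whenever `∑_β exp (- T k_β m_β) ≤ 1`, where `K = q` unconditionally, or
`K` is the constant in the KLS inequality for the log-concave densities on `ℝ^q`, or, if the density is
also invariant under a set `Γ` of isometries of the free coordinates, for the `Γ`-invariant
log-concave densities on `ℝ^q`.

The starting file `RadialBlocks` is the case without free coordinates. The case of one vector of
`ℝ^{m}` and one free coordinate (bodies of revolution) is due to Huet.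

Method. The density is restricted to a set where the norms of the vectors of every block are small on
average (exponential tails by the starting modules `TH610.RB`, applied to the marginal) and tilted by
a Gaussian in the free directions. For the tilted density the Hessian inequality of the starting
modules leaves the part of the gradient in the symmetric coordinates, which is bounded by the Hardy
inequality of `TH610.RB` on the fibres. The tilt is removed with the Poincaré inequality for the law of
its centre, a log-concave density on `ℝ^q` with the symmetries `Γ`.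
-/

set_option autoImplicit false

namespace Pool.Agent.Results.MP_6d896a_gt.FreeDirections

open MeasureTheory Set
open scoped ENNReal InnerProductSpace

/-- `b` blocks, the block `β` consists of `k β` vectors of `ℝ^{m β}`, and `q` free coordinates:
`x (inl ⟨β, j, i⟩)` is the coordinate `i` of the vector `j` of the block `β`, `x (inr i)` the free
coordinate `i` -/
abbrev Space (b : ℕ) (k m : Fin b → ℕ) (q : ℕ) : Type :=
  EuclideanSpace ℝ ((Σ β : Fin b, Fin (k β) × Fin (m β)) ⊕ Fin q)

/-- `ℝ^q` -/
abbrev E (q : ℕ) : Type := EuclideanSpace ℝ (Fin q)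

/-- the Euclidean norm of the vector `j` of the block `β` -/
noncomputable def vecNorm {b q : ℕ} {k m : Fin b → ℕ} (x : Space b k m q) (β : Fin b)
    (j : Fin (k β)) : ℝ := Real.sqrt (∑ i, x (Sum.inl ⟨β, j, i⟩) ^ 2)

/-- the free coordinates -/
noncomputable def free {b q : ℕ} {k m : Fin b → ℕ} (x : Space b k m q) : E q :=
  WithLp.toLp 2 fun i => x (Sum.inr i)

/-- `ρ` is a log-concave density which depends on the coordinates in the blocks only through the norms
of the vectors, does not change when the vectors inside the blocks are permuted, and does not change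
under the isometries in `Γ` of the free coordinates. -/
structure Density {b q : ℕ} {k m : Fin b → ℕ} (Γ : Set (E q ≃ₗᵢ[ℝ] E q))
    (ρ : Space b k m q → ℝ) : Prop where
  nonneg : ∀ x, 0 ≤ ρ x
  meas : Measurable ρ
  logc : ∀ x y, ∀ t : ℝ, 0 < t → t < 1 → ρ x ^ (1 - t) * ρ y ^ t ≤ ρ ((1 - t) • x + t • y)
  radial : ∀ σ : ∀ β, Equiv.Perm (Fin (k β)), ∀ x y : Space b k m q,
    (∀ β j, vecNorm y β j = vecNorm x β (σ β j)) → free y = free x → ρ y = ρ x
  inv : ∀ g ∈ Γ, ∀ x y : Space b k m q, (∀ i, y (Sum.inl i) = x (Sum.inl i)) →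
    free y = g (free x) → ρ y = ρ x

/-- `Var ⟪θ, X⟫ ≤ s ‖θ‖²` for all `θ`: the covariance matrix of `μ` has norm at most `s`. -/
def CovLe {κ : Type} [Fintype κ] (μ : Measure (EuclideanSpace ℝ κ)) (s : ℝ) : Prop :=
  ∀ θ : EuclideanSpace ℝ κ, ProbabilityTheory.evariance (fun x => ⟪θ, x⟫_ℝ) μ ≤
    ENNReal.ofReal (s * ‖θ‖ ^ 2)

/-- `ρ` is a log-concave density on `ℝ^q` invariant under the isometries in `Γ`. -/
structure FreeDensity {q : ℕ} (Γ : Set (E q ≃ₗᵢ[ℝ] E q)) (ρ : E q → ℝ) : Prop where
  nonneg : ∀ x, 0 ≤ ρ x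
  meas : Measurable ρ
  logc : ∀ x y, ∀ t : ℝ, 0 < t → t < 1 → ρ x ^ (1 - t) * ρ y ^ t ≤ ρ ((1 - t) • x + t • y)
  inv : ∀ g ∈ Γ, ∀ x, ρ (g x) = ρ x

/-- the KLS inequality (spectral gap) with the constant `K` for the log-concave probability densities
of bounded support on `ℝ^q` invariant under the isometries in `Γ`: `Var f ≤ K s E ‖∇ f‖²` when the
covariance matrix has norm at most `s` -/
def KLS {q : ℕ} (Γ : Set (E q ≃ₗᵢ[ℝ] E q)) (K : ℝ) : Prop :=
  ∀ ρ : E q → ℝ, FreeDensity Γ ρ → (∃ R : ℝ, ∀ x, R < ‖x‖ → ρ x = 0) → ∀ μ : Measure (E q),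
    μ = volume.withDensity (fun x => ENNReal.ofReal (ρ x)) → IsProbabilityMeasure μ →
    ∀ s : ℝ, 0 < s → CovLe μ s → ∀ f : E q → ℝ, ContDiff ℝ 1 f →
      ProbabilityTheory.variance f μ ≤ K * s * ∫ x, ‖fderiv ℝ f x‖ ^ 2 ∂μ

/-- **KLS for log-concave measures with radial blocks of vectors and free coordinates.** There is an
absolute constant `C` such that for all `b, q ≥ 0`, all `k β, m β ≥ 1` (`β < b`), all `T ≥ 0` with
`∑_β exp (- T k_β m_β) ≤ 1`, every set `Γ` of linear isometries of `ℝ^q` (for example the empty set)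
and every `K ≥ 1` with `q ≤ K`, or such that the KLS inequality holds with the constant `K` for the
`Γ`-invariant densities on `ℝ^q`: for every log-concave probability density on
`∏_β (ℝ^{m β})^{k β} × ℝ^q` which depends on the coordinates in the blocks only through the norms of
the vectors, is symmetric inside the blocks and `Γ`-invariant in the free coordinates, with covariance
matrix of norm at most `s`, every `C¹` function with `‖∇ f‖ ≤ 1` has variance at most
`C (1 + T)² K s`, and every `C¹` function with `|f| ≤ 1` satisfies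
`(Var f)² ≤ C (1 + T)² K s E ‖∇ f‖²`. -/
theorem result : ∃ C : ℝ, 1 ≤ C ∧ ∀ (b : ℕ) (k m : Fin b → ℕ) (q : ℕ), (∀ β, 1 ≤ k β) →
    (∀ β, 1 ≤ m β) → ∀ T : ℝ, 0 ≤ T → ∑ β, Real.exp (-(T * (k β * m β))) ≤ 1 →
    ∀ (Γ : Set (E q ≃ₗᵢ[ℝ] E q)) (K : ℝ), 1 ≤ K → (q : ℝ) ≤ K ∨ KLS Γ K →
    ∀ ρ : Space b k m q → ℝ, Density Γ ρ →
    ∀ μ : Measure (Space b k m q),
    μ = volume.withDensity (fun x => ENNReal.ofReal (ρ x)) → IsProbabilityMeasure μ →
    ∀ s : ℝ, 0 < s → CovLe μ s → ∀ f : Space b k m q → ℝ, ContDiff ℝ 1 f →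
    ((∀ x, ‖fderiv ℝ f x‖ ≤ 1) → MemLp f 2 μ ∧
      ProbabilityTheory.variance f μ ≤ C * (1 + T) ^ 2 * K * s) ∧
    ((∀ x, |f x| ≤ 1) → ENNReal.ofReal (ProbabilityTheory.variance f μ ^ 2) ≤
      ENNReal.ofReal (C * (1 + T) ^ 2 * K * s) *
        ∫⁻ x, ENNReal.ofReal (‖fderiv ℝ f x‖ ^ 2) ∂μ) := by
  obtain ⟨C, hC, H⟩ := Pool.Agent.X43.RF.fullJ
  refine ⟨C, hC, ?_⟩
  intro b k m q hk hm T hT0 hT Γ K hK hor ρ hρ μ hμ hprob s hs hcov f hf
  subst hμ
  refine H b k m T q Γ K ⟨hk, hm, hT0, hT, hK, ?_⟩ ρ (Pool.Agent.X43.RF.gd_of hρ.nonneg hρ.meas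
    hρ.logc (fun F x y h1 h2 => hρ.radial F x y h1 (by
      ext j
      exact h2 j)) fun g hg x y h1 h2 => hρ.inv g hg x y h1 h2)
    hprob.measure_univ s hs hcov f hf
  refine hor.imp id fun h => ?_
  intro ρ' h1 h2 h3 h4 h5 h6 s' hs' hcov' g hg
  exact h ρ' ⟨h1, h2, h3, h4⟩ h5 _ rfl ⟨h6⟩ s' hs' hcov' g hg

end Pool.Agent.Results.MP_6d896a_gt.FreeDirections
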