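import Pool.Agent.X166.DS.Ind

/-!
# KLS for sums of independent 1-symmetric and left-invariant log-concave vectors

Q1, in the form of the Poincare inequality, for the laws of the random vectors `T_1 X_1 + … + T_N X_N`,
where the number `N`, the dimensions and the linear maps `T_i : ℝ^{m_i} → ℝⁿ` are arbitrary, the vectors
`X_i` are independent, and the law of each `X_i` is log-concave and either 1-symmetric (invariant under
permutations and sign changes of the coordinates) or, after a linear identification of `ℝ^{m_i}` with real
`a × b` matrices, `1 ≤ b ≤ a`, `3 ≤ a`, invariant under the left multiplication by orthogonal matrices.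
The constant is absolute. The symmetries of the summands may be unrelated, so in general the sum has no
symmetry besides `-1`; for one summand and `T_1 = id` these are the starting results `OneSymmetric` and
`OrthogonalInvariant`.

Method. The starting results bound the Poincare constant by `C s`, where `s` bounds all the second
moments `E ⟪θ, X⟫²`. For 1-symmetric measures the covariance matrix is a multiple of the identity. For
left-invariant measures it is `I ⊗ A`, and the right multiplication by `B⁻¹`, `A = Bᵀ B`, preserves the
invariance and makes it the identity. So in both cases one has the affine invariant inequality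
`Var f(X) ≤ C E Var (⟪∇ f(X), Y⟫ | X)`, `Y` an independent copy of `X`, with an absolute constant. This
inequality tensorises (Efron-Stein) and passes to all linear images.
-/

set_option autoImplicit false

namespace Pool.Agent.Results.MP_6d896a_gt.IndependentSums

open MeasureTheory Set
open scoped ENNReal InnerProductSpace

/-- Euclidean space of dimension `n` -/
abbrev Euc (n : ℕ) : Type := EuclideanSpace ℝ (Fin n)

/-- log-concave functions on `ℝ^m` with a positive finite integral (the integral of a function which is
not integrable is zero by convention) -/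
structure LogConcave {m : ℕ} (w : Euc m → ℝ) : Prop where
  nonneg : ∀ x, 0 ≤ w x
  meas : Measurable w
  conc : ∀ x y, ∀ t : ℝ, 0 < t → t < 1 → w x ^ (1 - t) * w y ^ t ≤ w ((1 - t) • x + t • y)
  pos : 0 < ∫ x, w x

/-- `w` does not change when the coordinates are permuted and when their signs are changed -/
def OneSymmetric {m : ℕ} (w : Euc m → ℝ) : Prop :=
  ∀ (σ : Equiv.Perm (Fin m)) (x y : Euc m), (∀ i, |y i| = |x (σ i)|) → w y = w x

/-- after a linear identification `e` of `ℝ^m` with the real `a × b` matrices, `3 ≤ a`, `1 ≤ b ≤ a`, the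
function `w` does not change when a matrix `X` is replaced by `U X`, `U` orthogonal -/
def LeftInvariant {m : ℕ} (w : Euc m → ℝ) : Prop :=
  ∃ (a b : ℕ) (e : Euc m ≃ₗ[ℝ] Matrix (Fin a) (Fin b) ℝ), 3 ≤ a ∧ 1 ≤ b ∧ b ≤ a ∧
    ∀ U ∈ Matrix.orthogonalGroup (Fin a) ℝ, ∀ x, w (e.symm (U * e x)) = w x

/-- the probability measure with density proportional to `w` -/
noncomputable def normalised {m : ℕ} (w : Euc m → ℝ) : Measure (Euc m) :=
  (∫⁻ x, ENNReal.ofReal (w x))⁻¹ • volume.withDensity fun x => ENNReal.ofReal (w x)

/-- the KLS inequality in the Poincare form: if `s > 0` bounds the variances of the marginals of `μ` in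
the directions of length one then `Var f ≤ C s E ‖∇ f‖²` for all `C¹` functions `f ∈ L²(μ)` -/
def KLSPoincare {n : ℕ} (C : ℝ) (μ : Measure (Euc n)) : Prop :=
  ∀ s : ℝ, 0 < s →
    (∀ θ : Euc n, ‖θ‖ = 1 → ProbabilityTheory.variance (fun x => ⟪x, θ⟫_ℝ) μ ≤ s) →
    ∀ f : Euc n → ℝ, ContDiff ℝ 1 f → MemLp f 2 μ →
      ENNReal.ofReal (ProbabilityTheory.variance f μ) ≤
        ENNReal.ofReal (C * s) * ∫⁻ x, ENNReal.ofReal (‖fderiv ℝ f x‖ ^ 2) ∂μ

/-- **KLS for sums of independent symmetric vectors.** There is an absolute constant `C` such that for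
all `N`, all `m_i ≥ 1`, all log-concave functions `w_i` on `ℝ^{m_i}`, `i < N`, each of them 1-symmetric or
left-invariant, all `n` and all linear maps `T : ∏ ℝ^{m_i} → ℝⁿ`, the law `μ` of `T(X_1, …, X_N)`, where the
`X_i` are independent with densities proportional to `w_i`, is a probability measure which satisfies
the KLS inequality in the Poincare form with the constant `C`. -/
theorem result : ∃ C : ℝ, 0 < C ∧ ∀ (N : ℕ) (m : Fin N → ℕ) (w : ∀ i, Euc (m i) → ℝ),
    (∀ i, 1 ≤ m i) → (∀ i, LogConcave (w i)) → (∀ i, OneSymmetric (w i) ∨ LeftInvariant (w i)) →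
    ∀ (n : ℕ) (T : (∀ i, Euc (m i)) →ₗ[ℝ] Euc n) (μ : Measure (Euc n)),
      μ = Measure.map T (Measure.pi fun i => normalised (w i)) →
      IsProbabilityMeasure μ ∧ KLSPoincare C μ := by
  obtain ⟨C, hC, H⟩ := Pool.Agent.X166.DS.sp_ind
  refine ⟨C, hC, fun N m w hm hw hB n T μ hμ => ?_⟩
  have h := H N m w hm (fun i => (hw i).nonneg) (fun i => (hw i).meas) (fun i => (hw i).conc)
    (fun i => (hw i).pos) hB n (LinearMap.toContinuousLinearMap T)
  have hμ' : μ = Measure.map (LinearMap.toContinuousLinearMap T)
      (Measure.pi fun i => Pool.Agent.Y506.RG.pm (w i)) := hμ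
  rw [← hμ'] at h
  exact ⟨h.prob, fun s hs hvar f hf hL => h.full hC hs hvar hf hL⟩

end Pool.Agent.Results.MP_6d896a_gt.IndependentSums
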